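import Mathlib
import Pool.Agent.Q150.SDSpace

/-!
# MP_5f2357_gt: a pointwise function space into a strong `d`-space that is not a strong `d`-space
-/

set_option autoImplicit false

open Set Topology
open Pool.Agent.Q150.SDSpace

universe u v

namespace Pool.Agent.Results.MP_5f2357_gt.DiscreteDomain

/-- The set of all continuous maps `X → Y`; as a subtype of `X → Y` it carries the subspace topology of the
product topology, i.e. the topology of pointwise convergence. -/
abbrev Maps (X : Type u) (Y : Type v) [TopologicalSpace X] [TopologicalSpace Y] : Type (max u v) :=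
  {f : X → Y // Continuous f}

theorem sle_map {X : Type u} {Y : Type v} [TopologicalSpace X] [TopologicalSpace Y] {g : X → Y}
    (hg : Continuous g) {x y : X} (h : sle x y) : sle (g x) (g y) :=
  sle_iff.mpr fun U hU hx => sle_iff.mp h (g ⁻¹' U) (hU.preimage hg) hx

section sigma

variable {ι : Type v} {X : ι → Type u} [∀ i, TopologicalSpace (X i)]

theorem sle_sigma {i : ι} {x y : X i} : sle (⟨i, x⟩ : Σ i, X i) ⟨i, y⟩ ↔ sle x y := by
  simp only [sle_iff_specializes]
  exact Topology.IsOpenEmbedding.sigmaMk.isInducing.specializes_iff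

theorem sle_sigma_eq {a b : Σ i, X i} (h : sle a b) : a.1 = b.1 := by
  obtain ⟨i, x⟩ := a
  obtain ⟨j, y⟩ := b
  have := sle_iff.mp h (range (Sigma.mk i)) isOpen_range_sigmaMk ⟨x, rfl⟩
  obtain ⟨z, hz⟩ := this
  exact (congrArg Sigma.fst hz : i = j)

theorem sle_sigma' {i : ι} {x : X i} {b : Σ i, X i} (h : sle ⟨i, x⟩ b) : ∃ y, b = ⟨i, y⟩ ∧ sle x y := by
  obtain ⟨j, y⟩ := b
  have : i = j := sle_sigma_eq h
  subst this
  exact ⟨y, rfl, sle_sigma.mp h⟩

/-- topological sums of strong `d`-spaces are strong `d`-spaces -/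
theorem strong_sigma (h : ∀ i, StrongDSpace (X i)) : StrongDSpace (Σ i, X i) := by
  constructor
  · refine ⟨fun a b hab => ?_⟩
    have h1 : sle a b := sle_iff_specializes.mpr hab.specializes'
    have h2 : sle b a := sle_iff_specializes.mpr hab.specializes
    obtain ⟨i, x⟩ := a
    obtain ⟨y, rfl, hxy⟩ := sle_sigma' h1
    haveI := (h i).1
    have hyx := sle_sigma.mp h2
    rw [sle_iff_specializes] at hxy hyx
    rw [(hyx.antisymm hxy : Inseparable x y).eq]
  · rintro D ⟨⟨i, d₀⟩, hd₀⟩ hdir ⟨j, x⟩ U hU hyp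
    have hall : ∀ d ∈ D, d.1 = i := by
      intro d hd
      obtain ⟨c, -, h1, h2⟩ := hdir _ hd₀ d hd
      exact (sle_sigma_eq h2).trans (sle_sigma_eq h1).symm
    by_cases hij : i = j
    · subst hij
      obtain ⟨d, hd, hdU⟩ := (h i).2 {d : X i | (⟨i, d⟩ : Σ i, X i) ∈ D} ⟨d₀, hd₀⟩ (by
        intro a ha b hb
        obtain ⟨c, hc, h1, h2⟩ := hdir _ ha _ hb
        obtain ⟨y, rfl, hay⟩ := sle_sigma' h1
        exact ⟨y, hc, hay, sle_sigma.mp h2⟩) x (Sigma.mk i ⁻¹' U) (hU.preimage continuous_sigmaMk) (by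
        intro z hz hxz
        refine hyp ⟨i, z⟩ (fun d hd => ?_) (sle_sigma.mpr hxz)
        obtain ⟨k, d⟩ := d
        have hk : k = i := hall _ hd
        subst hk
        exact sle_sigma.mpr (hz d hd))
      refine ⟨⟨i, d⟩, hd, fun z hz hxz => ?_⟩
      obtain ⟨y, rfl, hdy⟩ := sle_sigma' hz
      exact hdU y hdy (sle_sigma.mp hxz)
    · exact ⟨⟨i, d₀⟩, hd₀, fun z hz hxz => absurd ((sle_sigma_eq hz).trans (sle_sigma_eq hxz).symm) hij⟩

end sigma

/-- **There are a `T₀` space `X` (even a two-point discrete space) and a strong `d`-space `Y` such that the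
space of all continuous maps `X → Y` with the topology of pointwise convergence is not a strong
`d`-space.** -/
theorem result : ∃ (X Y : Type) (_ : TopologicalSpace X) (_ : TopologicalSpace Y),
    T0Space X ∧ StrongDSpace Y ∧ ¬ StrongDSpace (Maps X Y) := by
  obtain ⟨I, J, hIf, hJf, hId, hJd, hdisj⟩ := exists_two
  have hf : ∀ b, XI.Free (KK I J b) := by rintro (_ | _); exacts [hIf, hJf]
  have hd : ∀ b, XI.DenseU (KK I J b) := by rintro (_ | _); exacts [hId, hJd]
  refine ⟨Bool, Σ b, XI (KK I J b), inferInstance, inferInstance, inferInstance,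
    strong_sigma fun b => XI.strong (hf b) (hd b), ?_⟩
  let Y := Σ b, XI (KK I J b)
  let mk : (∀ b, XI (KK I J b)) → Maps Bool Y := fun z => ⟨fun b => ⟨b, z b⟩, continuous_of_discreteTopology⟩
  have hmk : ∀ z w : ∀ b, XI (KK I J b), (∀ b, sle (z b) (w b)) → sle (mk z) (mk w) := by
    intro z w h
    rw [sle_iff_specializes, ← Topology.IsInducing.subtypeVal.specializes_iff, specializes_pi]
    intro b
    exact sle_iff_specializes.mp (sle_sigma.mpr (h b))
  have hsle : ∀ (z : ∀ b, XI (KK I J b)) (w : Maps Bool Y), sle (mk z) w →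
      ∀ b, ∃ y : XI (KK I J b), w.1 b = ⟨b, y⟩ ∧ sle (z b) y := by
    intro z w h b
    rw [sle_iff_specializes, ← Topology.IsInducing.subtypeVal.specializes_iff, specializes_pi] at h
    exact sle_sigma' (sle_iff_specializes.mpr (h b))
  let V : ∀ (b : Bool), KK I J b → Set ℕ → Set Y := fun b i A => Sigma.mk b '' XI.W i A
  have hV : ∀ (b : Bool) (i : KK I J b) (A : Set ℕ), A ∈ i.1 → IsOpen (V b i A) := fun b i A hA =>
    Topology.IsOpenEmbedding.sigmaMk.isOpenMap _ (XI.isOpen_W i hA)
  let U : Set (Maps Bool Y) := {z | ∃ (i : KK I J false) (j : KK I J true) (A : Set ℕ), A ∈ i.1 ∧ Aᶜ ∈ j.1 ∧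
    z.1 false ∈ V false i A ∧ z.1 true ∈ V true j Aᶜ}
  refine not_strong (fun n => mk fun b => XI.d n) ?_ (mk fun b => XI.x) U ?_ ?_ ?_
  · intro m n hmn
    refine hmk _ _ fun b => ?_
    rw [XI.sle_iff_le (hf b)]
    exact hmn
  · have : U = ⋃ (i : KK I J false) (j : KK I J true) (A : Set ℕ) (_ : A ∈ i.1) (_ : Aᶜ ∈ j.1),
        ((fun z : Maps Bool Y => z.1 false) ⁻¹' V false i A ∩ (fun z : Maps Bool Y => z.1 true) ⁻¹' V true j Aᶜ) := by
      ext z
      simp only [U, mem_iUnion, mem_inter_iff, mem_preimage, mem_ofPred_eq, exists_prop]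
    rw [this]
    refine isOpen_iUnion fun i => isOpen_iUnion fun j => isOpen_iUnion fun A => isOpen_iUnion fun hA =>
      isOpen_iUnion fun hA' => ?_
    exact ((hV false i A hA).preimage ((continuous_apply false).comp continuous_subtype_val)).inter
      ((hV true j _ hA').preimage ((continuous_apply true).comp continuous_subtype_val))
  · intro z hz hxz
    have key : ∀ b, ∃ i : KK I J b, z.1 b = ⟨b, XI.p i⟩ := by
      intro b
      obtain ⟨y, hy, hxy⟩ := hsle _ z hxz b
      obtain ⟨i, hi⟩ := XI.eq_p (hf b) (z := y) (fun n => by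
        obtain ⟨y', hy', hdy⟩ := hsle _ z (hz n) b
        rw [hy] at hy'
        cases hy'
        exact hdy) hxy
      exact ⟨i, by rw [hy, hi]⟩
    obtain ⟨i, hi⟩ := key false
    obtain ⟨j, hj⟩ := key true
    have hne : i.1 ≠ j.1 := by
      intro h
      exact Set.disjoint_left.mp hdisj i.2 (h ▸ j.2)
    obtain ⟨A, hA, hA'⟩ := exists_sep hne
    refine ⟨i, j, A, hA, hA', ?_, ?_⟩
    · rw [hi]; exact ⟨_, Or.inl rfl, rfl⟩
    · rw [hj]; exact ⟨_, Or.inl rfl, rfl⟩
  · intro n
    refine ⟨mk fun b => XI.e n, ?_, ?_, ?_⟩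
    · refine hmk _ _ fun b => ?_
      rw [XI.sle_iff_le (hf b)]
      exact le_refl n
    · refine hmk _ _ fun b => ?_
      rw [XI.sle_iff_le (hf b)]
      trivial
    · rintro ⟨i, j, A, -, -, ⟨y, h1, hy⟩, ⟨y', h2, hy'⟩⟩
      have e1 : y = XI.e n := by
        have : (⟨false, y⟩ : Y) = ⟨false, XI.e n⟩ := hy
        cases this; rfl
      have e2 : y' = XI.e n := by
        have : (⟨true, y'⟩ : Y) = ⟨true, XI.e n⟩ := hy'
        cases this; rfl
      subst e1
      subst e2
      rcases h1 with h1 | ⟨m, hm, h1⟩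
      · cases h1
      · cases h1
        rcases h2 with h2 | ⟨m, hm', h2⟩
        · cases h2
        · cases h2
          exact hm' hm

end Pool.Agent.Results.MP_5f2357_gt.DiscreteDomain
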